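import Pool.Agent.W_be22fd_h31.MoebTest
import Pool.Agent.W_be22fd_h77.FamDef

/-!
# The family of the Moebius tests

`Fam arc a b (ZM e ρ) (phi e ρ)` for `[a, b] ⊂ (e - ρ, e + ρ)`; the potential difference `phi e ρ x y`
vanishes for `‖y - e‖ ≥ ρ`, it is at least `1/50` for `|x - e| ≤ (3/4) ρ`, `‖y - e‖ ≤ (21/25) ρ`, and
its average over an interval of length `≥ ρ/64` is at most `10`.
-/

open Real MeasureTheory Pool.Agent.Be22.Ker

namespace Pool.Agent.Be22.Moeb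

/-- The parametrisation of the test at `x = p.1` by the angle `p.2`. -/
noncomputable def ZM (e ρ : ℝ) (p : ℝ × ℝ) : ℂ := mm e ρ ((p.1 - e) / ρ) (circleMap 0 1 p.2)

open Classical in
/-- The potential difference. -/
noncomputable def phi (e ρ x : ℝ) (y : ℂ) : ℝ :=
  if y = x then 1 else log⁺ (‖(ρ : ℂ) ^ 2 - (x - e) * (y - e)‖ / (ρ * ‖(x : ℂ) - y‖))

theorem phi_nonneg (e ρ x : ℝ) (y : ℂ) : 0 ≤ phi e ρ x y := by
  unfold phi
  split_ifs
  · exact zero_le_one
  · exact posLog_nonneg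

theorem phi_of_ne {e ρ x : ℝ} {y : ℂ} (h : y ≠ x) :
    phi e ρ x y = log⁺ (‖(ρ : ℂ) ^ 2 - (x - e) * (y - e)‖ / (ρ * ‖(x : ℂ) - y‖)) := if_neg h

theorem phi_eq_phiM {e ρ x : ℝ} (hρ : 0 < ρ) {y : ℂ} (h : y ≠ x) :
    phi e ρ x y = phiM e ρ x y := by
  rw [phi_of_ne h, phiM]
  have hA : 0 < ‖(x : ℂ) - y‖ := norm_pos_iff.2 (sub_ne_zero.2 (Ne.symm h))
  set A := ‖(x : ℂ) - y‖ with hAd
  set B := ‖(ρ : ℂ) ^ 2 - (x - e) * (y - e)‖ with hBd
  have hB : 0 ≤ B := norm_nonneg _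
  have e1 : B / (ρ * A) = B / ρ / A := by field_simp
  rw [e1]
  have hBρ : 0 ≤ B / ρ := by positivity
  by_cases hle : B / ρ ≤ A
  · rw [max_eq_left hle, sub_self, posLog_eq_zero_iff, abs_of_nonneg (by positivity)]
    exact div_le_one_of_le₀ hle hA.le
  · rw [not_le] at hle
    rw [max_eq_right hle.le, posLog_eq_log, log_div (hA.trans hle).ne' hA.ne']
    rw [abs_of_nonneg (by positivity), le_div_iff₀ hA]
    linarith

theorem measurable_ZM (e ρ : ℝ) : Measurable (ZM e ρ) := by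
  have h1 : Measurable fun p : ℝ × ℝ => circleMap 0 1 p.2 :=
    (continuous_circleMap 0 1).measurable.comp measurable_snd
  have h2 : Measurable fun p : ℝ × ℝ => (((p.1 - e) / ρ : ℝ) : ℂ) := by fun_prop
  unfold ZM mm
  exact ((h1.add h2).div ((h2.mul h1).const_add 1)).const_mul _ |>.const_add _

theorem abs_div_lt {e ρ x : ℝ} (hρ : 0 < ρ) (h1 : e - ρ < x) (h2 : x < e + ρ) :
    |(x - e) / ρ| < 1 := by
  rw [abs_div, abs_of_pos hρ, div_lt_one hρ, abs_lt]
  constructor <;> linarith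

theorem mm_eq_finite {e ρ a : ℝ} (hρ : 0 < ρ) (ha : |a| < 1) (y : ℂ) :
    Set.Finite {ξ : ℂ | ‖ξ‖ = 1 ∧ mm e ρ a ξ = y} := by
  set x : ℂ := ((e + ρ * a : ℝ) : ℂ) with hx
  have hne := coef_ne (e := e) hρ ha y
  rw [← hx] at hne
  by_cases h0 : (ρ : ℂ) - a * (y - e) = 0
  · have h1 : x - y ≠ 0 := hne.resolve_right (by simpa using h0)
    refine Set.Finite.subset Set.finite_empty ?_
    rintro ξ ⟨hξ, hm⟩
    have h2 := mm_sub (e := e) (ρ := ρ) ha hξ.le y
    rw [hm, sub_self, ← hx, h0, mul_zero, add_zero] at h2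
    exact absurd h2.symm (div_ne_zero h1 (den_ne ha hξ.le))
  · refine Set.Finite.subset (Set.finite_singleton (-(x - y) / (ρ - a * (y - e)))) ?_
    rintro ξ ⟨hξ, hm⟩
    have h2 := mm_sub (e := e) (ρ := ρ) ha hξ.le y
    rw [hm, sub_self, ← hx, eq_comm, div_eq_zero_iff] at h2
    have h3 := h2.resolve_right (den_ne ha hξ.le)
    rw [Set.mem_singleton_iff, eq_div_iff h0]
    linear_combination h3

theorem ZM_apply (e ρ x θ : ℝ) : ZM e ρ (x, θ) = mm e ρ ((x - e) / ρ) (circleMap 0 1 θ) := rfl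

theorem norm_ZM_le {e ρ a b : ℝ} (hρ : 0 < ρ) (ha : e - ρ < a) (hb : b < e + ρ) (x : ℝ)
    (hx : x ∈ Set.Icc a b) (ω : ℝ) : ‖ZM e ρ (x, ω)‖ ≤ ρ + |e| := by
  have h1 := norm_mm_sub (e := e) hρ (abs_div_lt hρ (lt_of_lt_of_le ha hx.1)
    (lt_of_le_of_lt hx.2 hb)) (ξ := circleMap 0 1 ω) (by simp)
  rw [ZM_apply]
  have h2 := norm_add_le (mm e ρ ((x - e) / ρ) (circleMap 0 1 ω) - e) (e : ℂ)
  rw [sub_add_cancel, h1, Complex.norm_real, Real.norm_eq_abs] at h2
  exact h2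

theorem null_ZM {e ρ a b : ℝ} (hρ : 0 < ρ) (ha : e - ρ < a) (hb : b < e + ρ) (x : ℝ)
    (hx : x ∈ Set.Icc a b) (y : ℂ) : arc {ω | ZM e ρ (x, ω) = y} = 0 := by
  have hx1 := abs_div_lt hρ (lt_of_lt_of_le ha hx.1) (lt_of_le_of_lt hx.2 hb)
  have h1 := arc_null (mm_eq_finite (e := e) hρ hx1 y).countable
  have h2 : {ω : ℝ | ZM e ρ (x, ω) = y} ⊆
      {θ | circleMap 0 1 θ ∈ {ξ : ℂ | ‖ξ‖ = 1 ∧ mm e ρ ((x - e) / ρ) ξ = y}} := by
    intro ω hω
    change mm e ρ ((x - e) / ρ) (circleMap 0 1 ω) = y at hω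
    exact ⟨by simp, hω⟩
  exact measure_mono_null h2 h1

theorem integral_ZM {e ρ a b : ℝ} (hρ : 0 < ρ) (ha : e - ρ < a) (hb : b < e + ρ) (x : ℝ)
    (hx : x ∈ Set.Icc a b) (y : ℂ) (hy : y ≠ x) :
    ∫ ω, log ‖ZM e ρ (x, ω) - y‖ ∂arc = log ‖(x : ℂ) - y‖ + phi e ρ x y := by
  have hx1 := abs_div_lt hρ (lt_of_lt_of_le ha hx.1) (lt_of_le_of_lt hx.2 hb)
  have hxe : e + ρ * ((x - e) / ρ) = x := by field_simp; ring
  have h1 := circleAverage_mm (e := e) hρ hx1 y
  rw [hxe] at h1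
  rw [phi_eq_phiM hρ hy, ← h1, ← integral_arc]
  rfl

theorem integrable_ZM (e ρ x : ℝ) (y : ℂ) : Integrable (fun ω => log ‖ZM e ρ (x, ω) - y‖) arc := by
  have h := integrable_arc (circleIntegrable_mm (e := e) (ρ := ρ) (a := (x - e) / ρ) y)
  simpa only [ZM_apply] using h

/-- **The Moebius family.** -/
theorem fam {e ρ a b : ℝ} (hρ : 0 < ρ) (ha : e - ρ < a) (hb : b < e + ρ) :
    Fam arc a b (ZM e ρ) (phi e ρ) :=
  ⟨arc_prob, measurable_ZM e ρ, ⟨ρ + |e|, norm_ZM_le hρ ha hb⟩, null_ZM hρ ha hb,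
    fun x _ y => integrable_ZM e ρ x y, integral_ZM hρ ha hb, phi_nonneg e ρ⟩

/-- the basic identity -/
theorem norm_sq_identity (ρ u : ℝ) (v : ℂ) :
    ‖(ρ : ℂ) ^ 2 - u * v‖ ^ 2 = ρ ^ 2 * ‖(u : ℂ) - v‖ ^ 2 + (ρ ^ 2 - u ^ 2) * (ρ ^ 2 - ‖v‖ ^ 2) := by
  simp only [← Complex.normSq_eq_norm_sq, Complex.normSq_apply]
  simp [pow_two]
  ring

/-- **Support.** -/
theorem phi_eq_zero {e ρ x : ℝ} (hρ : 0 < ρ) (hx : |x - e| < ρ) {y : ℂ} (hy : ρ ≤ ‖y - e‖) :
    phi e ρ x y = 0 := by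
  have hne : y ≠ x := by
    rintro rfl
    rw [← Complex.ofReal_sub, Complex.norm_real, Real.norm_eq_abs] at hy
    linarith
  rw [phi_of_ne hne]
  have hA : 0 < ‖(x : ℂ) - y‖ := norm_pos_iff.2 (sub_ne_zero.2 (Ne.symm hne))
  rw [posLog_eq_zero_iff, abs_of_nonneg (by positivity)]
  apply div_le_one_of_le₀ _ (by positivity)
  have h1 := norm_sq_identity ρ (x - e) (y - e)
  have h2 : ((x - e : ℝ) : ℂ) - (y - e) = x - y := by push_cast; ring
  rw [h2] at h1
  have h3 : (ρ ^ 2 - (x - e) ^ 2) * (ρ ^ 2 - ‖y - e‖ ^ 2) ≤ 0 := by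
    apply mul_nonpos_of_nonneg_of_nonpos
    · rw [← sq_abs (x - e)]; nlinarith [abs_nonneg (x - e)]
    · nlinarith
  push_cast at h1
  have h4 : ‖(ρ : ℂ) ^ 2 - (x - e) * (y - e)‖ ^ 2 ≤ (ρ * ‖(x : ℂ) - y‖) ^ 2 := by
    rw [h1, mul_pow]; linarith
  exact (pow_le_pow_iff_left₀ (norm_nonneg _) (by positivity) two_ne_zero).1 h4

/-- **Lower bound.** -/
theorem le_phi {e ρ x : ℝ} (hρ : 0 < ρ) (hx : |x - e| ≤ 3 / 4 * ρ) {y : ℂ}
    (hy : ‖y - e‖ ≤ 21 / 25 * ρ) : 1 / 50 ≤ phi e ρ x y := by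
  by_cases hne : y = x
  · rw [phi, if_pos hne]; norm_num
  rw [phi_of_ne hne]
  have hA : 0 < ‖(x : ℂ) - y‖ := norm_pos_iff.2 (sub_ne_zero.2 (Ne.symm hne))
  have h1 := norm_sq_identity ρ (x - e) (y - e)
  have h2 : ((x - e : ℝ) : ℂ) - (y - e) = x - y := by push_cast; ring
  rw [h2] at h1
  push_cast at h1
  set A := ‖(x : ℂ) - y‖ with hAd
  set B := ‖(ρ : ℂ) ^ 2 - (x - e) * (y - e)‖ with hBd
  have hB : 0 ≤ B := norm_nonneg _
  have hA2 : A ≤ (3 / 4 + 21 / 25) * ρ := by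
    have : (x : ℂ) - y = ((x - e : ℝ) : ℂ) - (y - e) := by push_cast; ring
    rw [hAd, this]
    refine (norm_sub_le _ _).trans ?_
    rw [Complex.norm_real, Real.norm_eq_abs]
    linarith
  have hA3 : A ^ 2 ≤ ((3 / 4 + 21 / 25) * ρ) ^ 2 := pow_le_pow_left₀ hA.le hA2 2
  have h3 : 7 / 16 * ρ ^ 2 ≤ ρ ^ 2 - (x - e) ^ 2 := by
    have : |x - e| ^ 2 ≤ (3 / 4 * ρ) ^ 2 := pow_le_pow_left₀ (abs_nonneg _) hx 2
    rw [sq_abs] at this
    nlinarith
  have h4 : 184 / 625 * ρ ^ 2 ≤ ρ ^ 2 - ‖y - e‖ ^ 2 := by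
    have : ‖y - e‖ ^ 2 ≤ (21 / 25 * ρ) ^ 2 := pow_le_pow_left₀ (norm_nonneg _) hy 2
    nlinarith
  have h5 : 7 / 16 * ρ ^ 2 * (184 / 625 * ρ ^ 2) ≤ (ρ ^ 2 - (x - e) ^ 2) * (ρ ^ 2 - ‖y - e‖ ^ 2) :=
    mul_le_mul h3 h4 (by positivity) (by nlinarith [sq_nonneg ρ])
  have h6 : 21 / 20 * (ρ * A) ^ 2 ≤ B ^ 2 := by
    rw [h1]
    have h7 : ρ ^ 2 * A ^ 2 ≤ ρ ^ 2 * ((3 / 4 + 21 / 25) * ρ) ^ 2 :=
      mul_le_mul_of_nonneg_left hA3 (by positivity)
    nlinarith [sq_nonneg (ρ ^ 2)]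
  have hρA : 0 < ρ * A := by positivity
  have h8 : 21 / 20 ≤ (B / (ρ * A)) ^ 2 := by
    rw [div_pow, le_div_iff₀ (by positivity)]
    exact h6
  set r := B / (ρ * A) with hr
  have hr0 : 0 ≤ r := by positivity
  have h9 : log r ≤ log⁺ r := by rw [posLog_def]; exact le_max_right _ _
  have h10 : 1 - ((r ^ 2))⁻¹ ≤ log (r ^ 2) := one_sub_inv_le_log_of_pos (by linarith)
  have h11 : (r ^ 2)⁻¹ ≤ (21 / 20)⁻¹ := inv_anti₀ (by norm_num) h8
  rw [log_pow] at h10
  push_cast at h10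
  norm_num at h11
  linarith

/-- the elementary entropy bound -/
theorem entropy_aux {s w : ℝ} (hs : 0 ≤ s) (hw : 0 < w) : s * (log w - log s) ≤ w - s := by
  rcases eq_or_lt_of_le hs with h | h
  · rw [← h]; simp [hw.le]
  · have h1 : log (w / s) ≤ w / s - 1 := log_le_sub_one_of_pos (by positivity)
    rw [log_div hw.ne' h.ne'] at h1
    calc s * (log w - log s) ≤ s * (w / s - 1) := mul_le_mul_of_nonneg_left h1 hs
      _ = w - s := by field_simp

theorem integrable_log_abs (a b c : ℝ) :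
    IntervalIntegrable (fun x => log |x - c|) volume a b := by
  have h1 : IntervalIntegrable log volume (a - c) (b - c) := intervalIntegral.intervalIntegrable_log'
  have h2 := h1.comp_sub_right c
  simp only [sub_add_cancel] at h2
  simpa only [log_abs] using h2

theorem integral_log_abs (a b c : ℝ) :
    ∫ x in a..b, log |x - c| = (b - c) * log (b - c) - (a - c) * log (a - c) - (b - a) := by
  simp only [log_abs]
  rw [intervalIntegral.integral_comp_sub_right (fun x => log x) c, integral_log]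
  ring

/-- the average of `log (w / |x - c|)` for `c` in the interval of length `w` is at most `2` -/
theorem integral_log_le {a b c : ℝ} (hab : a < b) (h1 : a ≤ c) (h2 : c ≤ b) :
    ∫ x in a..b, (log (b - a) - log |x - c|) ≤ 2 * (b - a) := by
  rw [intervalIntegral.integral_sub intervalIntegrable_const (integrable_log_abs a b c),
    intervalIntegral.integral_const, integral_log_abs, smul_eq_mul]
  have e1 := entropy_aux (s := b - c) (w := b - a) (by linarith) (by linarith)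
  have e2 := entropy_aux (s := c - a) (w := b - a) (by linarith) (by linarith)
  have e3 : log (a - c) = log (c - a) := by rw [← log_neg_eq_log, neg_sub]
  rw [e3]
  nlinarith

theorem clamp_le {a b c x : ℝ} (hab : a ≤ b) (h1 : a ≤ x) (h2 : x ≤ b) :
    |x - max a (min b c)| ≤ |x - c| := by
  rcases le_total c a with h | h
  · rw [min_eq_right (h.trans hab), max_eq_left h, abs_of_nonneg (by linarith)]
    exact le_trans (by linarith) (le_abs_self _)
  · rcases le_total c b with h' | h'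
    · rw [min_eq_right h', max_eq_right h]
    · rw [min_eq_left h', max_eq_right hab, abs_of_nonpos (by linarith)]
      exact le_trans (by linarith) (neg_le_abs _)

theorem log_two_le : log 128 ≤ 5 := by
  have h : (128 : ℝ) = 2 ^ 7 := by norm_num
  rw [h, log_pow]
  have := log_two_lt_d9
  push_cast
  linarith

/-- the pointwise upper bound -/
theorem phi_le {e ρ a b x : ℝ} (hρ : 0 < ρ) (ha : e - ρ < a) (hb : b < e + ρ) (hab : a < b)
    (hw : ρ / 64 ≤ b - a) (h1 : a ≤ x) (h2 : x ≤ b) (y : ℂ) (hx : x ≠ max a (min b y.re)) :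
    phi e ρ x y ≤ 5 + (log (b - a) - log |x - max a (min b y.re)|) := by
  set c := max a (min b y.re) with hc
  have hac : a ≤ c := le_max_left _ _
  have hcb : c ≤ b := max_le hab.le (min_le_left _ _)
  have hxc : 0 < |x - c| := abs_pos.2 (sub_ne_zero.2 hx)
  have hxw : |x - c| ≤ b - a := abs_le.2 ⟨by linarith, by linarith⟩
  have hlog : log |x - c| ≤ log (b - a) := log_le_log hxc hxw
  have hxe : |x - e| < ρ := abs_lt.2 ⟨by linarith, by linarith⟩
  by_cases hy : ρ ≤ ‖y - e‖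
  · rw [phi_eq_zero hρ hxe hy]
    linarith
  rw [not_le] at hy
  have hne : y ≠ x := by
    rintro rfl
    apply hx
    rw [hc, Complex.ofReal_re, min_eq_right h2, max_eq_right h1]
  rw [phi_of_ne hne]
  have hA : |x - c| ≤ ‖(x : ℂ) - y‖ := by
    refine (clamp_le hab.le h1 h2).trans ?_
    have := Complex.abs_re_le_norm ((x : ℂ) - y)
    simpa using this
  have hA0 : 0 < ‖(x : ℂ) - y‖ := hxc.trans_le hA
  have hB : ‖(ρ : ℂ) ^ 2 - (x - e) * (y - e)‖ ≤ 2 * ρ ^ 2 := by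
    refine (norm_sub_le _ _).trans ?_
    rw [norm_mul, norm_pow, Complex.norm_real, Real.norm_eq_abs, abs_of_pos hρ,
      ← Complex.ofReal_sub, Complex.norm_real, Real.norm_eq_abs]
    have : |x - e| * ‖y - e‖ ≤ ρ * ρ := mul_le_mul hxe.le hy.le (norm_nonneg _) hρ.le
    nlinarith
  have hr : ‖(ρ : ℂ) ^ 2 - (x - e) * (y - e)‖ / (ρ * ‖(x : ℂ) - y‖) ≤ 128 * (b - a) / |x - c| := by
    calc ‖(ρ : ℂ) ^ 2 - (x - e) * (y - e)‖ / (ρ * ‖(x : ℂ) - y‖)
        ≤ 2 * ρ ^ 2 / (ρ * ‖(x : ℂ) - y‖) := by gcongr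
      _ = 2 * ρ / ‖(x : ℂ) - y‖ := by field_simp
      _ ≤ 2 * ρ / |x - c| := by gcongr
      _ ≤ 128 * (b - a) / |x - c| := div_le_div_of_nonneg_right (by linarith) hxc.le
  have hr1 : 1 ≤ 128 * (b - a) / |x - c| := by
    rw [le_div_iff₀ hxc]
    linarith
  have hr0 : 0 ≤ ‖(ρ : ℂ) ^ 2 - (x - e) * (y - e)‖ / (ρ * ‖(x : ℂ) - y‖) := by positivity
  have h3 := posLog_le_posLog hr0 hr
  rw [posLog_eq_log (x := 128 * (b - a) / |x - c|) (by rwa [abs_of_nonneg (by positivity)]),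
    log_div (by nlinarith) hxc.ne', log_mul (by norm_num) (by linarith)] at h3
  have := log_two_le
  linarith

theorem measurable_phi (e ρ : ℝ) (y : ℂ) : Measurable fun x : ℝ => phi e ρ x y := by
  unfold phi
  have h1 : MeasurableSet {x : ℝ | y = x} := by
    have : {x : ℝ | y = x} = (fun x : ℝ => (x : ℂ)) ⁻¹' {y} := by
      ext x
      simp [eq_comm]
    rw [this]
    exact Complex.measurable_ofReal (measurableSet_singleton y)
  refine Measurable.ite h1 measurable_const ?_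
  have h2 : Measurable fun x : ℝ => ‖(ρ : ℂ) ^ 2 - (x - e) * (y - e)‖ / (ρ * ‖(x : ℂ) - y‖) := by
    fun_prop
  exact (measurable_const.max (measurable_log.comp h2))

theorem integrable_phi {e ρ a b : ℝ} (hρ : 0 < ρ) (ha : e - ρ < a) (hb : b < e + ρ) (hab : a < b)
    (hw : ρ / 64 ≤ b - a) (y : ℂ) : IntervalIntegrable (fun x => phi e ρ x y) volume a b := by
  have h1 : IntervalIntegrable (fun x => 5 + (log (b - a) - log |x - max a (min b y.re)|)) volume
      a b := intervalIntegrable_const.add (intervalIntegrable_const.sub (integrable_log_abs a b _))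
  refine h1.mono_fun (measurable_phi e ρ y).aestronglyMeasurable ?_
  rw [Filter.EventuallyLE, Set.uIoc_of_le hab.le, ae_restrict_iff' measurableSet_Ioc]
  have h2 : ∀ᵐ x : ℝ, x ≠ max a (min b y.re) := by
    rw [ae_iff]; simp
  filter_upwards [h2] with x hx hx1
  rw [Real.norm_of_nonneg (phi_nonneg e ρ x y)]
  exact (phi_le hρ ha hb hab hw hx1.1.le hx1.2 y hx).trans (le_norm_self _)

/-- **The average over the interval.** -/
theorem integral_phi_le {e ρ a b : ℝ} (hρ : 0 < ρ) (ha : e - ρ < a) (hb : b < e + ρ) (hab : a < b)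
    (hw : ρ / 64 ≤ b - a) (y : ℂ) : ∫ x in a..b, phi e ρ x y ≤ (b - a) * 7 := by
  have h1 : IntervalIntegrable (fun x => (log (b - a) - log |x - max a (min b y.re)|)) volume
      a b := intervalIntegrable_const.sub (integrable_log_abs a b _)
  have h2 : ∀ᵐ x : ℝ, x ≠ max a (min b y.re) := by
    rw [ae_iff]; simp
  calc ∫ x in a..b, phi e ρ x y
      ≤ ∫ x in a..b, (5 + (log (b - a) - log |x - max a (min b y.re)|)) := by
        apply intervalIntegral.integral_mono_ae_restrict hab.le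
          (integrable_phi hρ ha hb hab hw y) (intervalIntegrable_const.add h1)
        rw [Filter.EventuallyLE, ae_restrict_iff' measurableSet_Icc]
        filter_upwards [h2] with x hx hx1
        exact phi_le hρ ha hb hab hw hx1.1 hx1.2 y hx
    _ = (b - a) * 5 + ∫ x in a..b, (log (b - a) - log |x - max a (min b y.re)|) := by
        rw [intervalIntegral.integral_add intervalIntegrable_const h1,
          intervalIntegral.integral_const, smul_eq_mul]
    _ ≤ (b - a) * 5 + 2 * (b - a) := by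
        have := integral_log_le hab (le_max_left a (min b y.re))
          (max_le hab.le (min_le_left _ _))
        linarith
    _ = (b - a) * 7 := by ring

end Pool.Agent.Be22.Moeb
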