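import Pool.Agent.W_be22fd_h77.Phase

/-!
# The Moebius test (`M`-test)

For real `a` with `|a| < 1`, `ρ > 0` and real `e` the map `m(ξ) = e + ρ (ξ + a)/(1 + a ξ)` sends the
unit circle to the circle of radius `ρ` around `e` and `0` to `x = e + ρ a`.
-/

open Real MeasureTheory Pool.Agent.Be22.Ker

namespace Pool.Agent.Be22.Moeb

/-- The Moebius map. -/
noncomputable def mm (e ρ a : ℝ) (ξ : ℂ) : ℂ := e + ρ * ((ξ + a) / (1 + a * ξ))

/-- The kernel of the test with pole `x = e + ρ a`. -/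
noncomputable def phiM (e ρ x : ℝ) (y : ℂ) : ℝ :=
  log (max ‖(x : ℂ) - y‖ (‖(ρ : ℂ) ^ 2 - (x - e) * (y - e)‖ / ρ)) - log ‖(x : ℂ) - y‖

theorem den_ne {a : ℝ} (ha : |a| < 1) {ξ : ℂ} (hξ : ‖ξ‖ ≤ 1) : (1 : ℂ) + a * ξ ≠ 0 := by
  intro h
  have h1 : (a : ℂ) * ξ = -1 := by linear_combination h
  have h2 : ‖(a : ℂ) * ξ‖ = 1 := by rw [h1]; simp
  rw [norm_mul, Complex.norm_real, Real.norm_eq_abs] at h2
  have h3 : |a| * ‖ξ‖ ≤ |a| * 1 := mul_le_mul_of_nonneg_left hξ (abs_nonneg a)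
  linarith

/-- `m` maps the unit circle to the circle of radius `ρ`. -/
theorem norm_mm_sub {e ρ a : ℝ} (hρ : 0 < ρ) (ha : |a| < 1) {ξ : ℂ} (hξ : ‖ξ‖ = 1) :
    ‖mm e ρ a ξ - e‖ = ρ := by
  have hd := den_ne ha hξ.le
  have h1 : mm e ρ a ξ - e = ρ * ((ξ + a) / (1 + a * ξ)) := by unfold mm; ring
  have h2 : ‖ξ + a‖ = ‖(1 : ℂ) + a * ξ‖ := by
    have h3 : ξ * (starRingEnd ℂ) ξ = 1 := by
      rw [Complex.mul_conj, Complex.normSq_eq_norm_sq, hξ]; simp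
    have h4 : (1 : ℂ) + a * ξ = ξ * (starRingEnd ℂ) (ξ + a) := by
      rw [map_add, Complex.conj_ofReal, mul_add, h3]; ring
    rw [h4, norm_mul, hξ, one_mul, Complex.norm_conj]
  rw [h1, norm_mul, norm_div, h2, div_self (norm_ne_zero_iff.2 hd), mul_one, Complex.norm_real,
    Real.norm_eq_abs, abs_of_pos hρ]

theorem mm_sub {e ρ a : ℝ} (ha : |a| < 1) {ξ : ℂ} (hξ : ‖ξ‖ ≤ 1) (y : ℂ) :
    mm e ρ a ξ - y = (((e + ρ * a : ℝ) : ℂ) - y + ξ * (ρ - a * (y - e))) / (1 + a * ξ) := by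
  have hd := den_ne ha hξ
  have h1 : (ρ : ℂ) * ((ξ + a) / (1 + a * ξ)) * (1 + a * ξ) = ρ * (ξ + a) := by
    rw [mul_assoc, div_mul_cancel₀ _ hd]
  rw [eq_div_iff hd, mm]
  push_cast
  linear_combination h1

theorem phiM_arg {e ρ a : ℝ} (hρ : 0 < ρ) (y : ℂ) :
    ‖(ρ : ℂ) ^ 2 - (((e + ρ * a : ℝ) : ℂ) - e) * (y - e)‖ / ρ = ‖(ρ : ℂ) - a * (y - e)‖ := by
  have h1 : (ρ : ℂ) ^ 2 - (((e + ρ * a : ℝ) : ℂ) - e) * (y - e) = ρ * (ρ - a * (y - e)) := by
    push_cast; ring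
  rw [h1, norm_mul, Complex.norm_real, Real.norm_eq_abs, abs_of_pos hρ]
  field_simp

/-- one of the two coefficients does not vanish -/
theorem coef_ne {e ρ a : ℝ} (hρ : 0 < ρ) (ha : |a| < 1) (y : ℂ) :
    ((e + ρ * a : ℝ) : ℂ) - y ≠ 0 ∨ (ρ : ℂ) - a * (y - e) ≠ 0 := by
  by_contra hcon
  rw [not_or, not_not, not_not] at hcon
  obtain ⟨h1, h2⟩ := hcon
  have h3 : y = ((e + ρ * a : ℝ) : ℂ) := by linear_combination -h1
  rw [h3] at h2
  have h4 : ((ρ * (1 - a ^ 2) : ℝ) : ℂ) = 0 := by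
    push_cast at h2 ⊢
    linear_combination h2
  have h5 : ρ * (1 - a ^ 2) = 0 := by exact_mod_cast h4
  have h6 : a ^ 2 < 1 := by
    rw [← sq_abs]; nlinarith [abs_nonneg a]
  have : 0 < ρ * (1 - a ^ 2) := by
    apply mul_pos hρ; linarith
  linarith

theorem circleIntegrable_mm {e ρ a : ℝ} (y : ℂ) :
    CircleIntegrable (fun ξ => log ‖mm e ρ a ξ - y‖) 0 1 := by
  apply MeromorphicOn.circleIntegrable_log_norm (f := fun ξ => mm e ρ a ξ - y)
  intro z hz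
  unfold mm
  fun_prop

/-- **Potential of the test.** -/
theorem circleAverage_mm {e ρ a : ℝ} (hρ : 0 < ρ) (ha : |a| < 1) (y : ℂ) :
    circleAverage (fun ξ => log ‖mm e ρ a ξ - y‖) 0 1
      = log ‖((e + ρ * a : ℝ) : ℂ) - y‖ + phiM e ρ (e + ρ * a) y := by
  set x : ℂ := ((e + ρ * a : ℝ) : ℂ) with hx
  have hne := coef_ne (e := e) hρ ha y
  rw [← hx] at hne
  have ha1 : (1 : ℂ) ≠ 0 ∨ (a : ℂ) ≠ 0 := Or.inl one_ne_zero
  have e1 : circleAverage (fun ξ => log ‖mm e ρ a ξ - y‖) 0 1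
      = circleAverage (fun ξ => log ‖(x - y) + ξ * (ρ - a * (y - e))‖ - log ‖(1 : ℂ) + ξ * a‖)
        0 1 := by
    have hfin : Set.Finite {ξ : ℂ | (x - y) + ξ * (ρ - a * (y - e)) = 0 ∧ ‖ξ‖ = 1} := by
      by_cases h0 : (ρ : ℂ) - a * (y - e) = 0
      · have h1 : x - y ≠ 0 := hne.resolve_right (by simpa using h0)
        refine Set.Finite.subset Set.finite_empty ?_
        rintro ξ ⟨hξ, -⟩
        rw [h0, mul_zero, add_zero] at hξ
        exact absurd hξ h1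
      · refine Set.Finite.subset (Set.finite_singleton (-(x - y) / (ρ - a * (y - e)))) ?_
        rintro ξ ⟨hξ, -⟩
        rw [Set.mem_singleton_iff, eq_div_iff h0]
        linear_combination hξ
    have hstep : Set.EqOn (fun ξ => log ‖mm e ρ a ξ - y‖)
        (fun ξ => log ‖((x - y) + ξ * (ρ - a * (y - e))) / (1 + ξ * a)‖)
        (Metric.sphere 0 |1|) := by
      intro ξ hξ
      rw [abs_one, mem_sphere_zero_iff_norm] at hξ
      have := mm_sub (e := e) (ρ := ρ) ha hξ.le y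
      simp only
      rw [this, mul_comm (a : ℂ) ξ]
    rw [circleAverage_congr_sphere hstep]
    apply circleAverage_congr_codiscreteWithin _ one_ne_zero
    filter_upwards [compl_finite_mem_codiscreteWithin (s := Metric.sphere (0 : ℂ) |1|) hfin,
      Filter.self_mem_codiscreteWithin (Metric.sphere (0 : ℂ) |1|)] with ξ hξ hs
    rw [abs_one, mem_sphere_zero_iff_norm] at hs
    have h1 : (x - y) + ξ * (ρ - a * (y - e)) ≠ 0 := fun h0 => hξ ⟨h0, hs⟩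
    have h2 : (1 : ℂ) + ξ * a ≠ 0 := by
      have := den_ne ha hs.le
      rwa [mul_comm (a : ℂ) ξ] at this
    rw [norm_div, log_div (norm_ne_zero_iff.2 h1) (norm_ne_zero_iff.2 h2)]
  rw [e1, circleAverage_fun_sub (circleIntegrable_log_add_mul _ _)
    (circleIntegrable_log_add_mul _ _), circleAverage_log_add_mul _ _ hne,
    circleAverage_log_add_mul _ _ ha1, phiM, phiM_arg hρ, ← hx]
  have h3 : max ‖(1 : ℂ)‖ ‖(a : ℂ)‖ = 1 := by
    rw [norm_one, Complex.norm_real, Real.norm_eq_abs, max_eq_left ha.le]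
  rw [h3, log_one]
  ring

end Pool.Agent.Be22.Moeb
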